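import Pool.Agent.W805.LR.Stm5

/-!
# Part PD-UC: permutations of a subset of `Fin m`
-/

set_option autoImplicit false

namespace Pool.Agent.W975.PD.UC

open Finset Equiv
open Pool.Agent.W805.LR Pool.Agent.W805.PD

theorem pavg_eq {m : ℕ} (A : Finset (Fin m)) (G : (Fin m → Fin m → Prop) → ℝ)
    (e : Fin A.card ≃ {x // x ∈ A}) :
    pavg A G = uavg (fun τ : Perm (Fin A.card) =>
      G fun i j => (τ.extendDomain e).SameCycle i j) := by
  classical
  unfold pavg uavg
  congr 1
  · symm
    refine Finset.sum_bij (fun τ _ => τ.extendDomain e) ?_ ?_ ?_ ?_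
    · intro τ _
      simp only [mem_filter, mem_univ, true_and]
      intro i hi
      exact Perm.extendDomain_apply_not_subtype τ e hi
    · intro τ _ τ' _ h
      exact Perm.extendDomainHom_injective e h
    · intro σ hσ
      simp only [mem_filter, mem_univ, true_and] at hσ
      have hmem : ∀ x, σ x ∈ A ↔ x ∈ A := by
        intro x
        constructor
        · intro h
          by_contra hx
          rw [hσ x hx] at h
          exact hx h
        · intro h
          by_contra hx
          have := hσ _ hx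
          have h2 := σ.injective this
          rw [h2] at hx
          exact hx h
      refine ⟨(e.symm.permCongr) (σ.subtypePerm hmem), mem_univ _, ?_⟩
      ext x
      by_cases hx : x ∈ A
      · rw [Perm.extendDomain_apply_subtype _ e hx]
        simp
      · rw [Perm.extendDomain_apply_not_subtype _ e hx, hσ x hx]
    · intro τ _; rfl
  · rw [Fintype.card_perm, Fintype.card_fin]

theorem cnt_eq {m : ℕ} (P : Fin m → Prop) [DecidablePred P] :
    cnt P = ((univ.filter P).card : ℝ) := by
  unfold cnt
  rw [Finset.card_filter]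
  push_cast
  apply Finset.sum_congr rfl
  intro v _
  by_cases h : P v <;> simp [h]

/-- size of the class of a moved point -/
theorem cnt_class {m : ℕ} (σ : Perm (Fin m)) (u : Fin m) (hu : σ u ≠ u) :
    cnt (fun j => σ.SameCycle u j) = ((σ.cycleOf u).support.card : ℝ) := by
  classical
  rw [cnt_eq]
  congr 2
  ext j
  simp only [mem_filter, mem_univ, true_and]
  rw [Perm.mem_support_cycleOf_iff' hu]

/-- size of the class of a fixed point -/
theorem cnt_fix {m : ℕ} (σ : Perm (Fin m)) (u : Fin m) (hu : σ u = u) :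
    cnt (fun j => σ.SameCycle u j) = 1 := by
  classical
  rw [cnt_eq]
  have : (univ.filter fun j => σ.SameCycle u j) = {u} := by
    ext j
    simp only [mem_filter, mem_univ, true_and, mem_singleton]
    constructor
    · intro h
      exact (Perm.SameCycle.eq_of_left h hu).symm
    · rintro rfl
      exact Perm.SameCycle.refl _ _
  rw [this]
  simp

/-- the key equivalence -/
theorem key {m : ℕ} (σ : Perm (Fin m)) (i : ℕ) (x : ℝ) (hm : 0 < m) (hx : 1 / (m : ℝ) < x) :
    (∃ f : Fin (i + 1) → Fin m, (∀ a b, a ≠ b → ¬ σ.SameCycle (f a) (f b)) ∧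
      ∀ a, x ≤ (cnt fun j => σ.SameCycle (f a) j) / m) ↔
    i + 1 ≤ Multiset.card (σ.cycleType.filter fun c : ℕ => x ≤ (c : ℝ) / m) := by
  classical
  have hm' : (0 : ℝ) < m := by exact_mod_cast hm
  have hcard : Multiset.card (σ.cycleType.filter fun c : ℕ => x ≤ (c : ℝ) / m) =
      (σ.cycleFactorsFinset.filter fun c => x ≤ (c.support.card : ℝ) / m).card := by
    rw [Perm.cycleType_def, Multiset.filter_map, Multiset.card_map]
    rfl
  rw [hcard]
  constructor
  · rintro ⟨f, hf, hs⟩
    have hmv : ∀ a, σ (f a) ≠ f a := by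
      intro a ha
      have h1 := hs a
      rw [cnt_fix σ _ ha] at h1
      linarith
    have hinj : Function.Injective (fun a => σ.cycleOf (f a)) := by
      intro a b hab
      by_contra hne
      apply hf a b hne
      have h1 : f b ∈ (σ.cycleOf (f b)).support := by
        rw [Perm.mem_support_cycleOf_iff' (hmv b)]
      have h2 : σ.cycleOf (f a) = σ.cycleOf (f b) := hab
      rw [← h2, Perm.mem_support_cycleOf_iff' (hmv a)] at h1
      exact h1
    have hsub : (univ.image fun a => σ.cycleOf (f a)) ⊆
        (σ.cycleFactorsFinset.filter fun c => x ≤ (c.support.card : ℝ) / m) := by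
      intro c hc
      rw [mem_image] at hc
      obtain ⟨a, _, rfl⟩ := hc
      rw [mem_filter]
      refine ⟨?_, ?_⟩
      · rw [Perm.cycleOf_mem_cycleFactorsFinset_iff, Perm.mem_support]
        exact hmv a
      · rw [← cnt_class σ _ (hmv a)]
        exact hs a
    have h3 := Finset.card_le_card hsub
    rw [Finset.card_image_of_injective _ hinj, Finset.card_univ, Fintype.card_fin] at h3
    exact h3
  · intro h
    set F := σ.cycleFactorsFinset.filter fun c => x ≤ (c.support.card : ℝ) / m with hF
    have h1 : Fintype.card (Fin (i + 1)) ≤ Fintype.card F := by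
      rw [Fintype.card_fin, Fintype.card_coe]; exact h
    obtain ⟨g⟩ := Function.Embedding.nonempty_of_card_le h1
    have hg : ∀ a, (g a).1 ∈ σ.cycleFactorsFinset ∧ x ≤ (((g a).1.support.card : ℕ) : ℝ) / m := by
      intro a
      exact mem_filter.1 (g a).2
    have hne : ∀ a, ∃ u, u ∈ (g a).1.support := by
      intro a
      have h2 := (Perm.mem_cycleFactorsFinset_iff.1 (hg a).1).1
      have h3 := h2.two_le_card_support
      exact Finset.card_pos.1 (by omega)
    choose f hf using hne
    have hc : ∀ a, (g a).1 = σ.cycleOf (f a) := fun a => Perm.cycle_is_cycleOf (hf a) (hg a).1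
    have hmv : ∀ a, σ (f a) ≠ f a := by
      intro a
      rw [← Perm.mem_support]
      exact Perm.mem_cycleFactorsFinset_support_le (hg a).1 (hf a)
    refine ⟨f, ?_, ?_⟩
    · intro a b hab hs
      apply hab
      apply g.injective
      apply Subtype.ext
      rw [hc a, hc b]
      exact Perm.SameCycle.cycleOf_eq hs
    · intro a
      rw [cnt_class σ _ (hmv a), ← hc a]
      exact (hg a).2

theorem cnt_le {m : ℕ} (P : Fin m → Prop) : cnt P ≤ m := by
  classical
  unfold cnt
  rw [← Finset.sum_filter, Finset.sum_const, nsmul_eq_mul, mul_one]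
  have := Finset.card_filter_le (univ : Finset (Fin m)) P
  simp at this ⊢
  simpa using this

theorem close {m : ℕ} (hm : 0 < m) (A : Finset (Fin m)) (e : Fin A.card ≃ {x // x ∈ A})
    (τ : Perm (Fin A.card)) (i : ℕ) :
    |rOrd (fun a b => (τ.extendDomain e).SameCycle a b) i - ordMS m τ.partition.parts i|
      ≤ 1 / m ∧ 0 ≤ rOrd (fun a b => (τ.extendDomain e).SameCycle a b) i ∧
      rOrd (fun a b => (τ.extendDomain e).SameCycle a b) i ≤ 1 := by
  classical
  have hm' : (0 : ℝ) < m := by exact_mod_cast hm
  set σ := τ.extendDomain e with hσ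
  have hct : σ.cycleType = τ.cycleType := Perm.cycleType_extendDomain e
  set X := {x : ℝ | 0 ≤ x ∧ (x = 0 ∨ ∃ f : Fin (i + 1) → Fin m,
    (∀ a b, a ≠ b → ¬ σ.SameCycle (f a) (f b)) ∧
    ∀ a, x ≤ (cnt fun j => σ.SameCycle (f a) j) / m)} with hX
  set Y := {x : ℝ | 0 ≤ x ∧ (x = 0 ∨ i + 1 ≤ Multiset.card
    (τ.partition.parts.filter fun c : ℕ => x ≤ (c : ℝ) / m))} with hY
  have hr : rOrd (fun a b => σ.SameCycle a b) i = sSup X := rfl
  have hs : ordMS m τ.partition.parts i = sSup Y := rfl
  have hX0 : (0 : ℝ) ∈ X := ⟨le_refl _, Or.inl rfl⟩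
  have hY0 : (0 : ℝ) ∈ Y := ⟨le_refl _, Or.inl rfl⟩
  have hXb : ∀ x ∈ X, x ≤ 1 := by
    rintro x ⟨h0, h1 | ⟨f, _, h1⟩⟩
    · rw [h1]; norm_num
    · refine (h1 0).trans ?_
      rw [div_le_one hm']
      exact cnt_le _
  have hXbd : BddAbove X := ⟨1, hXb⟩
  have hparts : ∀ x : ℝ, 1 / (m : ℝ) < x →
      Multiset.card (τ.partition.parts.filter fun c : ℕ => x ≤ (c : ℝ) / m) =
      Multiset.card (σ.cycleType.filter fun c : ℕ => x ≤ (c : ℝ) / m) := by
    intro x hx
    rw [Perm.parts_partition, Multiset.filter_add, Multiset.card_add, hct]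
    have : Multiset.filter (fun c : ℕ => x ≤ (c : ℝ) / m)
        (Multiset.replicate (Fintype.card (Fin A.card) - #τ.support) 1) = 0 := by
      rw [Multiset.filter_eq_nil]
      intro c hc
      rw [Multiset.eq_of_mem_replicate hc]
      push_cast
      linarith
    rw [this]
    simp
  have hXY : ∀ x : ℝ, 1 / (m : ℝ) < x → (x ∈ X ↔ x ∈ Y) := by
    intro x hx
    have hx0 : 0 < x := lt_trans (by positivity) hx
    constructor
    · rintro ⟨h0, h1 | h1⟩
      · exact absurd h1 hx0.ne'
      · refine ⟨h0, Or.inr ?_⟩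
        rw [hparts x hx]
        exact (key σ i x hm hx).1 h1
    · rintro ⟨h0, h1 | h1⟩
      · exact absurd h1 hx0.ne'
      · refine ⟨h0, Or.inr ?_⟩
        rw [hparts x hx] at h1
        exact (key σ i x hm hx).2 h1
  have hm1 : 1 / (m : ℝ) ≤ 1 := by
    rw [div_le_one hm']
    exact_mod_cast hm
  have hYb : ∀ x ∈ Y, x ≤ 1 := by
    intro x hx
    by_cases h : 1 / (m : ℝ) < x
    · exact hXb x ((hXY x h).2 hx)
    · push Not at h
      linarith
  have hYbd : BddAbove Y := ⟨1, hYb⟩
  have h1 : sSup X ≤ sSup Y + 1 / m := by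
    apply csSup_le ⟨0, hX0⟩
    intro x hx
    by_cases h : 1 / (m : ℝ) < x
    · have := le_csSup hYbd ((hXY x h).1 hx)
      have : 0 < 1 / (m : ℝ) := by positivity
      linarith
    · push Not at h
      have := le_csSup hYbd hY0
      linarith
  have h2 : sSup Y ≤ sSup X + 1 / m := by
    apply csSup_le ⟨0, hY0⟩
    intro x hx
    by_cases h : 1 / (m : ℝ) < x
    · have := le_csSup hXbd ((hXY x h).2 hx)
      have : 0 < 1 / (m : ℝ) := by positivity
      linarith
    · push Not at h
      have := le_csSup hXbd hX0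
      linarith
  refine ⟨?_, ?_, ?_⟩
  · rw [hr, hs, abs_le]
    constructor <;> linarith
  · rw [hr]; exact le_csSup hXbd hX0
  · rw [hr]; exact csSup_le ⟨0, hX0⟩ hXb

theorem main : S_UC := by
  intro k f δ hf hδ
  have hcomp : IsCompact (Set.Icc (fun _ : Fin k => (-1 : ℝ)) (fun _ => 2)) := isCompact_Icc
  have huc := hcomp.uniformContinuousOn_of_continuous hf.continuousOn
  rw [Metric.uniformContinuousOn_iff] at huc
  obtain ⟨η, hη, hu⟩ := huc δ hδ
  obtain ⟨m0, hm0⟩ := exists_nat_gt (1 / η)
  refine ⟨m0 + 1, ?_⟩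
  intro m hm A
  have hmpos : 0 < m := by omega
  have hm' : (0 : ℝ) < m := by exact_mod_cast hmpos
  have hm1 : 1 / (m : ℝ) ≤ 1 := by
    rw [div_le_one hm']
    exact_mod_cast hmpos
  have hmη : 1 / (m : ℝ) < η := by
    rw [div_lt_comm₀ hm' hη]
    have : ((m0 + 1 : ℕ) : ℝ) ≤ m := by exact_mod_cast hm
    push_cast at this
    linarith
  have e : Fin A.card ≃ {x // x ∈ A} := A.equivFin.symm
  rw [pavg_eq A _ e]
  unfold uavg
  rw [← sub_div, ← Finset.sum_sub_distrib, abs_div]
  have hc : 0 < (Fintype.card (Perm (Fin A.card)) : ℝ) := by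
    exact_mod_cast Fintype.card_pos
  rw [abs_of_pos hc, div_le_iff₀ hc]
  refine (Finset.abs_sum_le_sum_abs _ _).trans ?_
  calc _ ≤ ∑ _τ : Perm (Fin A.card), δ := by
        apply Finset.sum_le_sum
        intro τ _
        have hcl := fun i : Fin k => close hmpos A e τ i
        have h1 := hu (fun i : Fin k => rOrd (fun a b => (τ.extendDomain e).SameCycle a b) i)
          ⟨fun i => by have := (hcl i).2.1; simp only; linarith,
           fun i => by have := (hcl i).2.2; simp only; linarith⟩
          (fun i : Fin k => ordMS m τ.partition.parts i)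
          ⟨fun i => by have h := (hcl i).1; rw [abs_le] at h; have := (hcl i).2.1; simp only; linarith,
           fun i => by have h := (hcl i).1; rw [abs_le] at h; have := (hcl i).2.2; simp only; linarith⟩
          ?_
        · rw [Real.dist_eq] at h1
          exact h1.le
        · refine lt_of_le_of_lt ?_ hmη
          rw [dist_pi_le_iff (by positivity)]
          intro i
          rw [Real.dist_eq]
          exact (hcl i).1
    _ = δ * (Fintype.card (Perm (Fin A.card)) : ℝ) := by
        rw [Finset.sum_const, Finset.card_univ, nsmul_eq_mul, mul_comm]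

end Pool.Agent.W975.PD.UC
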