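import Pool.Agent.W805.LR.Stm7
import Pool.Agent.W782.PD.Avg

/-!
# Part PD3-PP: Poisson-Dirichlet coordinates are positive
-/

set_option autoImplicit false

namespace Pool.Agent.W975.PD.PP

open MeasureTheory Set Filter
open Pool.Agent.W805.PD Pool.Agent.W782.PD.Avg

/-- the points `1/4` and `1/2` -/
noncomputable def qa : unitInterval := ⟨1 / 4, by norm_num, by norm_num⟩
noncomputable def qb : unitInterval := ⟨1 / 2, by norm_num, by norm_num⟩

/-- the good event -/
def B (i : ℕ) : Set (ℕ → unitInterval) := Set.pi (Finset.range (i + 1)) (fun _ => Icc qa qb)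

theorem B_meas (i : ℕ) : MeasurableSet (B i) :=
  MeasurableSet.pi (Finset.countable_toSet _) fun _ _ => measurableSet_Icc

theorem B_pos (i : ℕ) : 0 < PU.real (B i) := by
  have h : PU (B i) = ∏ _l ∈ Finset.range (i + 1), (volume (Icc qa qb) : ENNReal) :=
    Measure.infinitePi_pi (fun _ => (volume : Measure unitInterval)) (fun _ _ => measurableSet_Icc)
  have h2 : (volume (Icc qa qb) : ENNReal) = ENNReal.ofReal (1 / 4) := by
    rw [unitInterval.volume_Icc]
    congr 1
    simp only [qa, qb]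
    norm_num
  rw [h2] at h
  rw [measureReal_def, h, Finset.prod_const, ENNReal.toReal_pow]
  rw [ENNReal.toReal_ofReal (by norm_num)]
  positivity

theorem yy_low {i : ℕ} {U : ℕ → unitInterval} (hU : U ∈ B i) {l : ℕ} (hl : l ≤ i) :
    (1 / 4 : ℝ) ^ (i + 2) ≤ yy U l := by
  have h1 : ∀ j, j ≤ i → (1 / 4 : ℝ) ≤ U j ∧ (U j : ℝ) ≤ 1 / 2 := by
    intro j hj
    have := hU j (by simpa using Nat.lt_succ_of_le hj)
    exact ⟨this.1, this.2⟩
  unfold yy
  have h2 : (1 / 4 : ℝ) ^ l ≤ ∏ j ∈ Finset.range l, (1 - (U j : ℝ)) := by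
    have : ∏ _j ∈ Finset.range l, (1 / 4 : ℝ) ≤ ∏ j ∈ Finset.range l, (1 - (U j : ℝ)) := by
      refine Finset.prod_le_prod (fun _ _ => by norm_num) fun j hj => ?_
      have := (h1 j (by have := Finset.mem_range.1 hj; omega)).2
      linarith
    simpa using this
  calc (1 / 4 : ℝ) ^ (i + 2) ≤ (1 / 4 : ℝ) ^ (l + 1) :=
        pow_le_pow_of_le_one (by norm_num) (by norm_num) (by omega)
    _ = 1 / 4 * (1 / 4) ^ l := by ring
    _ ≤ _ := mul_le_mul (h1 l hl).1 h2 (by positivity) (U l).2.1

theorem ss_low {i : ℕ} {U : ℕ → unitInterval} (hU : U ∈ B i) : (1 / 4 : ℝ) ^ (i + 2) ≤ ss U i := by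
  refine le_csSup (bdd U i) ?_
  show ((i + 1 : ℕ) : ℕ∞) ≤ Set.encard {j : ℕ | (1 / 4 : ℝ) ^ (i + 2) ≤ yy U j}
  have h2 : ((Finset.range (i + 1) : Finset ℕ) : Set ℕ) ⊆
      {j : ℕ | (1 / 4 : ℝ) ^ (i + 2) ≤ yy U j} := fun j hj =>
    yy_low hU (by have := Finset.mem_range.1 (Finset.mem_coe.1 hj); omega)
  refine le_trans (le_of_eq ?_) (Set.encard_le_encard h2)
  rw [Set.encard_coe_eq_coe_finsetCard, Finset.card_range]

theorem main : S_pdpos := by
  intro i M hM
  set c : ℝ := (1 / 4 : ℝ) ^ (i + 2) with hc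
  have hc0 : 0 < c := by positivity
  refine ⟨M * c / 2, by positivity, fun ε hε hε2 => ?_⟩
  rw [pdInt_eq]
  have e : (fun U : ℕ → unitInterval => (fun x : Fin (i + 1) → ℝ =>
      min 1 (max 0 (x (Fin.last i) / ε - 1))) (fun j : Fin (i + 1) => M * ss U j)) =
      fun U => min 1 (max 0 (M * ss U i / ε - 1)) := by
    funext U
    simp
  rw [e]
  have hm : Measurable fun U : ℕ → unitInterval => min 1 (max 0 (M * ss U i / ε - 1)) :=
    measurable_const.min (measurable_const.max
      ((((measurable_ss i).const_mul M).div_const ε).sub_const 1))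
  have hint : Integrable (fun U : ℕ → unitInterval => min 1 (max 0 (M * ss U i / ε - 1))) PU := by
    refine Integrable.of_bound hm.aestronglyMeasurable 1 (Eventually.of_forall fun U => ?_)
    rw [Real.norm_eq_abs, abs_of_nonneg (le_min zero_le_one (le_max_left _ _))]
    exact min_le_left _ _
  have h1 : ∫ U, (B i).indicator (fun _ => (1 : ℝ)) U ∂PU ≤
      ∫ U, min 1 (max 0 (M * ss U i / ε - 1)) ∂PU := by
    refine integral_mono ((integrable_const (1 : ℝ)).indicator (B_meas i)) hint fun U => ?_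
    by_cases hU : U ∈ B i
    · simp only [indicator_of_mem hU]
      have h2 := ss_low hU
      have h3 : 2 ≤ M * ss U i / ε := by
        rw [le_div_iff₀ hε]
        have := mul_le_mul_of_nonneg_left h2 hM.le
        linarith
      refine le_min le_rfl (le_trans ?_ (le_max_right _ _))
      linarith
    · simp only [indicator_of_notMem hU]
      exact le_min zero_le_one (le_max_left _ _)
  rw [integral_indicator (B_meas i), setIntegral_const, smul_eq_mul, mul_one] at h1
  exact (B_pos i).trans_le h1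

end Pool.Agent.W975.PD.PP
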